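import Pool.Agent.W477.GM.Stms

/-! # Project GM: the twisted sequence changes with a digit -/

set_option maxHeartbeats 1000000

namespace Pool.Agent.W477.GM.H436

open Pool.Agent.W477.GM

theorem ofNat_inj {n m : ℕ} (h : (PSet.ofNat.{0} n).Equiv (PSet.ofNat.{0} m)) : n = m := by
  have h1 : ∀ k : ℕ, (PSet.ofNat.{0} k).rank = k := by
    intro k
    induction k with
    | zero => simp [PSet.ofNat]
    | succ k ih =>
      rw [PSet.ofNat, PSet.rank_insert, ih]
      rw [max_eq_left (Order.le_succ _)]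
      simp
  have h2 := PSet.rank_congr h
  rw [h1, h1] at h2
  exact_mod_cast h2

theorem feq_of {P : Type 1} [PartialOrder P] [OrderTop P] {ι : Type} {U W : ι → P → Prop}
    {x y : ι → Nm P} {r : P} (h1 : ∀ i q, q ≤ r → (Lab (U i) q ↔ Lab (W i) q))
    (h2 : ∀ i q, q ≤ r → feq (x i) (y i) q) : feq (.mk ι U x) (.mk ι W y) r := by
  rw [feq]
  exact ⟨fun i q hq hl => ⟨q, le_rfl, i, (h1 i q hq).1 hl, h2 i q hq⟩,
    fun i q hq hl => ⟨q, le_rfl, i, (h1 i q hq).2 hl, h2 i q hq⟩⟩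

theorem lab_act (g : QQ ≃o QQ) (U : QQ → Prop) (q : QQ) :
    Lab (fun u => U (g.symm u)) q ↔ Lab U (g.symm q) := by
  constructor
  · rintro ⟨u, hu, hq⟩
    exact ⟨g.symm u, hu, g.symm.monotone hq⟩
  · rintro ⟨u, hu, hq⟩
    exact ⟨g u, by simpa using hu, (OrderIso.symm_apply_le g).1 hq⟩

theorem le_rs {C : Type} {L : C → ℕ∞} [PartialOrder C] [OrderTop C] (K : J → Prop)
    (q : Cn C L) : q ≤ rs K q := by
  refine Cn.le_def.2 ⟨le_rfl, fun j => ?_⟩
  by_cases hj : K j
  · refine ⟨?_, fun o ho => ?_⟩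
    · simp [rs, hj]
    · simp [rs, hj]
  · refine ⟨?_, fun o ho => ?_⟩
    · simp [rs, hj]
    · simp [rs, hj] at ho

theorem rs_pj (K : J → Prop) (q : QQ) : rs K (pj (rs K q)) = pj (rs K q) := by
  refine Cn.ext' rfl (fun j => ?_) (fun j o ho => ?_)
  · by_cases hj : K j
    · simp [rs, pj, hj]
    · simp [rs, pj, hj]
  · by_cases hj : K j
    · simp [rs, pj, hj]
    · simp [rs, pj, hj]

theorem rs_in (K : J → Prop) (q : QQ) (j : J) (hj : K j) :
    (pj (rs K q)).len j = q.len j ∧ (pj (rs K q)).bit j = q.bit j := by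
  constructor
  · simp [rs, pj, hj]
  · funext o
    simp [rs, pj, hj]

theorem lab_x (β : Ordinal.{0}) (n : ℕ) (b : Bool) (z : Ib β → Bool) (i : Ib β) (q : QQ) :
    Lab (fun u : QQ => (rs (fun j => j.1 < β + 1) (pj u) = pj u ∧ ov i < (pj u).len (β, n, b) ∧
      xor ((pj u).bit (β, n, b) (ov i)) (z i) = true)) q ↔
    ov i < q.len (β, n, b) ∧ xor (q.bit (β, n, b) (ov i)) (z i) = true := by
  have hb : β < β + 1 := by
    rw [← Order.succ_eq_add_one]; exact Order.lt_succ β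
  constructor
  · rintro ⟨u, ⟨_, h2, h3⟩, hq⟩
    have h4 := (Cn.le_def.1 hq).2 (β, n, b)
    have h5 : ov i < u.len (β, n, b) := h2
    have h6 : xor (u.bit (β, n, b) (ov i)) (z i) = true := h3
    refine ⟨lt_of_lt_of_le h5 h4.1, ?_⟩
    rw [h4.2 _ h5]
    exact h6
  · rintro ⟨h2, h3⟩
    have h7 := rs_in (fun j => j.1 < β + 1) q (β, n, b) hb
    refine ⟨rs (fun j => j.1 < β + 1) q, ⟨rs_pj _ q, ?_, ?_⟩, le_rs _ q⟩
    · rw [h7.1]; exact h2
    · rw [h7.2]; exact h3

theorem feq_act (h1 : ActF QQ) (g : QQ ≃o QQ) (x y : Nm QQ) (h : ∀ p, feq x y p) (p : QQ) :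
    feq (act g x) (act g y) p := by
  have h2 := (h1.feq g x y (g.symm p)).2 (h _)
  rwa [OrderIso.apply_symm_apply] at h2

theorem feq_chk (h1 : ActF QQ) (hl : LiftF) (g : QQ ≃o QQ) (a : PSet.{0}) (p : QQ) :
    feq (act g (lift (chk a))) (chk a) p := by
  have h2 := feq_act h1 g (lift (chk a)) (chk a) (fun q => hl.chk a q) p
  rwa [h1.chk] at h2

theorem feq_a (hE : EqF QQ) (h1 : ActF QQ) (hl : LiftF) (on : Ordinal.{0} → PSet.{0})
    (β : Ordinal.{0}) (n : ℕ) (g : QQ ≃o QQ) (d : Bool) (r : QQ)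
    (hg : ∀ q, q ≤ r → (g.symm q).len (β, n, false) = q.len (β, n, d) ∧
      ∀ o, (g.symm q).bit (β, n, false) o = q.bit (β, n, d) o) :
    feq (act g (lift (aN on β n false))) (lift (aN on β n d)) r := by
  have ht : pj (⊤ : QQ) = ⊤ := rfl
  simp only [aN, lift, act]
  refine feq_of (fun z q hq => ?_) (fun z q hq => ?_)
  · constructor
    · intro _
      exact ⟨⊤, ht, le_top⟩
    · intro _
      refine ⟨⊤, ?_, le_top⟩
      show pj (g.symm ⊤) = ⊤
      rw [map_top, ht]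
  · simp only [xN, lift, act]
    refine feq_of (fun i q' hq' => ?_) (fun i q' hq' => ?_)
    · have h2 := hg q' (hq'.trans hq)
      rw [lab_act g (fun u : QQ => (rs (fun j => j.1 < β + 1) (pj u) = pj u ∧
        ov i < (pj u).len (β, n, false) ∧ xor ((pj u).bit (β, n, false) (ov i)) (z i) = true)) q',
        lab_x, lab_x, h2.1, h2.2]
    · exact hE.trans _ _ _ _ (feq_chk h1 hl g _ _) (hE.symm _ _ _ (hl.chk _ _))

theorem feq_op (hE : EqF QQ) (h1 : ActF QQ) (h2 : PrF QQ) (hl : LiftF) (g : QQ ≃o QQ)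
    (k : PSet.{0}) (a : Nm PP) (p : QQ) :
    feq (act g (lift (opN (chk k) a))) (opN (chk k) (act g (lift a))) p := by
  have h3 := feq_act h1 g _ _ (fun q => hl.op (chk k) a q) p
  rw [h1.op] at h3
  exact hE.trans _ _ _ _ h3 ((h2.op _ _ _ _ _).2 ⟨feq_chk h1 hl g k p, hE.refl _ _⟩)

theorem seq3_holds (h : P_EQ) (h1 : P_ACT) (h2 : P_PR) (hl : P_LIFT) (h5 : P_SEQ2)
    (_hc : P_CAX) : P_SEQ3 := by
  intro on hon β s hs hss n t ht htt r hr hf
  have hE := h QQ
  have hA := h1 QQ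
  have hP := h2 QQ
  have hs1 : ∀ q, s.symm q = s q := by
    intro q
    rw [OrderIso.symm_apply_eq]
    have : (s * s) q = q := by rw [hss]; rfl
    exact this.symm
  have ht1 : ∀ q, t.symm q = t q := by
    intro q
    rw [OrderIso.symm_apply_eq]
    have : (t * t) q = q := by rw [htt]; rfl
    exact this.symm
  -- the digit
  have hdig : ∀ q, q ≤ r → n < q.c.l.length ∧ q.c.l.getD n false = r.c.l.getD n false := by
    intro q hq
    have h3 : r.c.l <+: q.c.l := (Cn.le_def.1 hq).1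
    obtain ⟨w, hw⟩ := h3
    rw [← hw]
    constructor
    · rw [List.length_append]; omega
    · rw [List.getD_append _ _ _ _ hr]
  have hsw : ∀ (c : Str) (d : Bool), c.l.getD n false = d →
      swp c β (β, n, false) = (β, n, d) := by
    intro c d hd
    unfold swp
    cases d
    · rw [if_neg]
      rintro ⟨_, h6⟩
      simp only at h6
      rw [hd] at h6
      cases h6
    · rw [if_pos]
      · rfl
      · exact ⟨rfl, hd⟩
  obtain ⟨d, hd⟩ : ∃ d, r.c.l.getD n false = d := ⟨_, rfl⟩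
  have ha : ∀ r', r' ≤ r → feq (act s (lift (aN on β n false))) (lift (aN on β n d)) r' := by
    intro r' hr'
    refine feq_a hE hA hl on β n s d r' (fun q hq => ?_)
    have h3 := hs q
    have h4 : swp q.c β (β, n, false) = (β, n, d) :=
      hsw _ _ ((hdig q (hq.trans hr')).2.trans hd)
    rw [hs1]
    refine ⟨?_, fun o => ?_⟩
    · rw [(h3.2 _).1, h4]
    · rw [(h3.2 _).2, h4]
  have hb : ∀ r', r' ≤ r →
      feq (act (t * s) (lift (aN on β n false))) (lift (aN on β n (!d))) r' := by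
    intro r' hr'
    refine feq_a hE hA hl on β n (t * s) (!d) r' (fun q hq => ?_)
    have h3 := hs (t q)
    have h7 := ht q
    have h8 := hdig q (hq.trans hr')
    have h4 : swp (t q).c β (β, n, false) = (β, n, !d) := by
      apply hsw
      rw [h7.2.2.2 n h8.1, if_pos rfl, h8.2, hd]
    have h9 : (t * s).symm q = s (t q) := by
      rw [OrderIso.symm_apply_eq]
      have h10 : (t * s) (s (t q)) = t ((s * s) (t q)) := rfl
      rw [h10, hss]
      have h11 : t ((1 : QQ ≃o QQ) (t q)) = (t * t) q := rfl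
      rw [h11, htt]
      rfl
    rw [h9]
    refine ⟨?_, fun o => ?_⟩
    · rw [(h3.2 _).1, h4, h7.1]
    · rw [(h3.2 _).2, h4, h7.2.1]
  -- the child number n
  have hchild : ∃ r', r' ≤ r ∧ ∃ m : ℕ,
      feq (act s (lift (opN (chk (PSet.ofNat n)) (aN on β n false))))
        (act t (act s (lift (opN (chk (PSet.ofNat m)) (aN on β m false))))) r' := by
    have hf' := hf
    simp only [sN, lift, act] at hf'
    rw [feq] at hf'
    have h6 : Lab (fun u : QQ => pj (s.symm u) = ⊤) r := by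
      refine ⟨⊤, ?_, le_top⟩
      show pj (s.symm ⊤) = ⊤
      rw [map_top]; rfl
    obtain ⟨r', hr', m, _, hm⟩ := hf'.1 n r le_rfl h6
    exact ⟨r', hr', m, hm⟩
  obtain ⟨r', hr', m, hm⟩ := hchild
  rw [← hA.mul] at hm
  have h6 := hE.trans _ _ _ _ (hE.symm _ _ _ (feq_op hE hA hP hl s (PSet.ofNat n)
    (aN on β n false) r')) (hE.trans _ _ _ _ hm (feq_op hE hA hP hl (t * s) (PSet.ofNat m)
    (aN on β m false) r'))
  obtain ⟨h7, h8⟩ := (hP.op _ _ _ _ _).1 h6
  have h9 : n = m := ofNat_inj ((hP.chk_eq _ _ _).1 h7)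
  subst h9
  have h10 := hE.trans _ _ _ _ (hE.symm _ _ _ (ha r' hr')) (hE.trans _ _ _ _ h8 (hb r' hr'))
  have h11 := (hl.feq _ _ _).1 h10
  cases d
  · exact h5 on hon β n _ h11
  · exact h5 on hon β n _ ((h PP).symm _ _ _ h11)

end Pool.Agent.W477.GM.H436
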